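import Pool.Agent.L7h97.G5.Den
/-! Project QD: `Pool.Agent.L7h97.QD.t_DEN5 : S_DEN5` and `t_DEN8 : S_DEN8` are in `Pool/Agent/L7h97/G5/Den.lean`. -/
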